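import Pool.Agent.Helper54.LS.Fm
import Pool.Agent.Helper20.R.Final
import Pool.Agent.Helper30.S1.Exists
import Pool.Agent.Helper12.S1.Planar

/-!
# Every convex body in space has double lattice packings of density arbitrarily near `1/2`

A direction of projection with the structure `S1`. If the volume is small compared with the area of the
projection times the largest length of a section, the packing comes from a planar lattice packing of the
projection of density `3/4`; otherwise the volume is at least a quarter of that of a circumscribed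
parallelepiped and the packing consists of separated rows.
-/

set_option autoImplicit false
namespace Pool.Agent.Helper54.S1
open MeasureTheory Metric
open Pool.Agent.Helper59.Pack Pool.Agent.Helper69.MD Pool.Agent.Helper63.ML
open Pool.Agent.Helper7.LS Pool.Agent.Helper12.S1
open scoped ENNReal Pointwise

theorem deltaLstar_half {K : Set E3} (hK : IsConvexBody K) :
    ENNReal.ofReal (1 / 2) ≤ deltaLstar K := by
  obtain ⟨g, c, p, r, a, hS⟩ := Pool.Agent.Helper30.S1.exists_S1 hK
  rw [← deltaLstar_image g K]
  have hK' := body_image hK g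
  obtain ⟨y₀, hy0, hmax⟩ := exists_max hK'
  have hQc := proj_convex hK'
  have hQk := proj_compact hK'
  have hfin : volume (proj (g '' K)) ≠ ⊤ := hQk.measure_lt_top.ne
  by_cases hV : (volume (g '' K)).toReal ≤
      Pool.Agent.Helper54.LS.kap (3 / 4) * (len (g '' K) y₀ * (volume (proj (g '' K))).toReal)
  · obtain ⟨t₁, t₂, hdet, hle, hpack⟩ := latt hQc hQk hS
    rw [ENNReal.ofReal_le_iff_le_toReal hfin] at hle
    have hpack' : PlanarPacking (g '' K) t₁ t₂ := by
      intro m n hmn x hx y hy
      exact hpack m n hmn _ (pr_interior hx) _ (pr_interior hy)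
    exact Pool.Agent.Helper54.LS.fm_quad hK' le_rfl (by norm_num) hdet hle hpack' hy0 hmax hV
  · push Not at hV
    obtain ⟨u, v, wu, wv, huv, hu, hv, hwu, hwv, hw⟩ := para hQc hQk hS
    refine Pool.Agent.Helper20.R.rows hK' huv hu hv hmax ?_
    obtain ⟨M, hM⟩ : ∃ M, M = len (g '' K) y₀ := ⟨_, rfl⟩
    obtain ⟨b, hb⟩ : ∃ b, b = (volume (proj (g '' K))).toReal := ⟨_, rfl⟩
    obtain ⟨V, hVd⟩ : ∃ V, V = (volume (g '' K)).toReal := ⟨_, rfl⟩
    rw [← hM, ← hb, ← hVd] at hV
    rw [← hb] at hw
    rw [← hM, ← hVd]
    have hM0 : 0 < M := by rw [hM]; exact hy0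
    have hb0 : 0 < b := by rw [hb]; exact proj_pos hK'
    have hk : Pool.Agent.Helper54.LS.kap (3 / 4) = 3555 / 10000 := by
      unfold Pool.Agent.Helper54.LS.kap
      norm_num
    rw [hk] at hV
    have h2 : Real.sqrt 2 ≤ 4 * (3555 / 10000) := by
      rw [Real.sqrt_le_left (by norm_num)]
      norm_num
    calc M * (wu * wv) ≤ M * (Real.sqrt 2 * b * det2 u v) := mul_le_mul_of_nonneg_left hw hM0.le
      _ ≤ M * (4 * (3555 / 10000) * b * det2 u v) := by gcongr
      _ = 4 * (3555 / 10000 * (M * b)) * det2 u v := by ring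
      _ ≤ 4 * V * det2 u v := by gcongr

end Pool.Agent.Helper54.S1
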